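import Mathlib

set_option autoImplicit false

open Filter Topology Finset

namespace Pool.Agent.Results.MP_85199e_an.Orlicz

/-- The coefficients `a n = n^(-1/2) cos (n log n)`. -/
noncomputable def coefA (n : ℕ) : ℝ := Real.cos (n * Real.log n) / Real.sqrt n

/-- The coefficients `b n = - n^(-1/2) sin (n log n)`. -/
noncomputable def coefB (n : ℕ) : ℝ := -(Real.sin (n * Real.log n) / Real.sqrt n)

/-- the common value of the terms -/
theorem term_eq (n : ℕ) (x : ℝ) :
    coefA n * Real.cos (n * x) + coefB n * Real.sin (n * x) =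
      Real.cos (n * Real.log n + n * x) / Real.sqrt n := by
  unfold coefA coefB
  rw [Real.cos_add]
  ring

/-- the phase function -/
noncomputable def F (T t : ℝ) : ℝ := t * (Real.log (t / T) - 1)

theorem F_self {T : ℝ} (hT : 0 < T) : F T T = -T := by
  unfold F
  rw [div_self hT.ne', Real.log_one]
  ring

theorem F_deriv {T t : ℝ} (hT : 0 < T) (ht : 0 < t) :
    HasDerivAt (F T) (Real.log (t / T)) t := by
  unfold F
  have h1 : HasDerivAt (fun t : ℝ => Real.log (t / T)) (1 / t) t := by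
    have h2 := ((hasDerivAt_id' t).div_const T).log (by positivity)
    have h3 : 1 / T / (t / T) = 1 / t := by field_simp
    rw [h3] at h2
    exact h2
  have h3 := (hasDerivAt_id' t).mul (h1.sub_const 1)
  have h4 : 1 * (Real.log (t / T) - 1) + t * (1 / t) = Real.log (t / T) := by
    field_simp
    ring
  rw [h4] at h3
  exact h3

/-- increments of the phase -/
theorem F_incr {T s t : ℝ} (hT : 0 < T) (hs : T ≤ s) (hst : s ≤ t) :
    0 ≤ F T t - F T s ∧ F T t - F T s ≤ (t - s) * ((t - T) / T) := by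
  have hs0 : 0 < s := lt_of_lt_of_le hT hs
  have hd : ∀ y ∈ Set.Icc s t, HasDerivAt (F T) (Real.log (y / T)) y := fun y hy =>
    F_deriv hT (lt_of_lt_of_le hs0 hy.1)
  have hlow : ∀ y ∈ Set.Icc s t, 0 ≤ Real.log (y / T) := fun y hy =>
    Real.log_nonneg (by rw [le_div_iff₀ hT]; linarith [hy.1])
  have hup : ∀ y ∈ Set.Icc s t, Real.log (y / T) ≤ (t - T) / T := by
    intro y hy
    have hy0 : 0 < y := lt_of_lt_of_le hs0 hy.1
    have h1 := Real.log_le_sub_one_of_pos (div_pos hy0 hT)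
    have h2 : y / T - 1 ≤ (t - T) / T := by
      rw [sub_div, div_self hT.ne']
      gcongr
      exact hy.2
    linarith
  rcases eq_or_lt_of_le hst with h | h
  · subst h; simp
  obtain ⟨c, hc, hc'⟩ := exists_hasDerivAt_eq_slope (F T) (fun y => Real.log (y / T)) h
    (fun y hy => (hd y hy).continuousAt.continuousWithinAt) (fun y hy => hd y ⟨hy.1.le, hy.2.le⟩)
  have hc2 : c ∈ Set.Icc s t := ⟨hc.1.le, hc.2.le⟩
  have h3 : F T t - F T s = Real.log (c / T) * (t - s) := by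
    rw [eq_div_iff (by linarith)] at hc'
    linarith
  rw [h3]
  have h4 := hlow c hc2
  have h5 := hup c hc2
  constructor
  · exact mul_nonneg h4 (by linarith)
  · nlinarith

/-- the phase grows at least quadratically -/
theorem F_growth {T s : ℝ} (hT : 0 < T) (hs0 : 0 ≤ s) (hs1 : s ≤ 1) :
    -T + T * (s ^ 2 / 8) ≤ F T (T * (1 + s)) := by
  -- `(1 + s) log (1 + s) - s ≥ s ^ 2 / 8`
  have key : s ^ 2 / 8 ≤ (1 + s) * Real.log (1 + s) - s := by
    -- use `log (1 + s) = 2 log (sqrt (1 + s)) ≥ 2 (1 - 1 / sqrt (1 + s))`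
    have h2 : 2 * (1 - (Real.sqrt (1 + s))⁻¹) ≤ Real.log (1 + s) := by
      have h3 := Real.one_sub_inv_le_log_of_pos (Real.sqrt_pos.2 (by linarith : (0:ℝ) < 1 + s))
      rw [Real.log_sqrt (by linarith)] at h3
      linarith
    obtain ⟨q, hq⟩ : ∃ q, q = Real.sqrt (1 + s) := ⟨_, rfl⟩
    rw [← hq] at h2
    have hq1 : 1 ≤ q := by rw [hq]; exact Real.one_le_sqrt.2 (by linarith)
    have hqq : q * q = 1 + s := by rw [hq]; exact Real.mul_self_sqrt (by linarith)
    have hq2 : q ≤ 3 / 2 := by nlinarith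
    have h4 : (1 + s) * (2 * (1 - q⁻¹)) ≤ (1 + s) * Real.log (1 + s) :=
      mul_le_mul_of_nonneg_left h2 (by linarith)
    have h5 : (1 + s) * (2 * (1 - q⁻¹)) = 2 * q * q - 2 * q := by
      rw [← hqq]
      field_simp
    rw [h5] at h4
    have hs : s = q * q - 1 := by linarith
    have h6 : (q * q - 1) ^ 2 / 8 ≤ 2 * q * q - 2 * q - (q * q - 1) := by
      have h7 : (0:ℝ) ≤ 8 - (q + 1) ^ 2 := by nlinarith
      nlinarith [mul_nonneg (sq_nonneg (q - 1)) h7]
    have h8 : s ^ 2 / 8 = (q * q - 1) ^ 2 / 8 := by rw [← hs]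
    linarith
  have h7 : F T (T * (1 + s)) = -T + T * ((1 + s) * Real.log (1 + s) - s) := by
    unfold F
    rw [mul_div_cancel_left₀ _ hT.ne']
    ring
  rw [h7]
  have := mul_le_mul_of_nonneg_left key hT.le
  linarith

/-- The phase at integers. -/
theorem cos_phase (k : ℤ) (x T : ℝ) (hT : T = Real.exp (2 * Real.pi * k - 1 - x)) (n : ℕ)
    (hn : 0 < n) : Real.cos (n * Real.log n + n * x) = Real.cos (F T n) := by
  have hn' : (0:ℝ) < n := by exact_mod_cast hn
  have hT0 : 0 < T := by rw [hT]; exact Real.exp_pos _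
  have h1 : F T n = (n * Real.log n + n * x) - ((k * n : ℤ) : ℝ) * (2 * Real.pi) := by
    unfold F
    rw [Real.log_div hn'.ne' hT0.ne', hT, Real.log_exp]
    push_cast
    ring
  rw [h1, Real.cos_sub_int_mul_two_pi]

/-- A block of consecutive terms with sum bounded below. -/
theorem block (x : ℝ) (N₀ : ℕ) : ∃ M N : ℕ, N₀ ≤ M ∧ M ≤ N ∧
    (1 / 160 : ℝ) ≤ ∑ n ∈ Ioc M N, Real.cos (n * Real.log n + n * x) / Real.sqrt n := by
  obtain ⟨k, hk⟩ : ∃ k : ℕ, max (400 : ℝ) (N₀ + 1) ≤ Real.exp (2 * Real.pi * k - 1 - x) := by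
    have h1 : Tendsto (fun k : ℕ => Real.exp (2 * Real.pi * k - 1 - x)) atTop atTop := by
      apply Real.tendsto_exp_atTop.comp
      have h2 : Tendsto (fun k : ℕ => 2 * Real.pi * (k : ℝ)) atTop atTop :=
        (tendsto_natCast_atTop_atTop).const_mul_atTop (by positivity)
      have h3 := tendsto_atTop_add_const_right atTop (-1 - x) h2
      refine h3.congr fun k => by ring
    exact (h1.eventually_ge_atTop _).exists
  set T := Real.exp (2 * Real.pi * k - 1 - x) with hT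
  have hT400 : (400 : ℝ) ≤ T := (le_max_left _ _).trans hk
  have hTN : (N₀ : ℝ) + 1 ≤ T := (le_max_right _ _).trans hk
  have hT0 : 0 < T := by linarith
  obtain ⟨r, hr⟩ : ∃ r, r = Real.sqrt T := ⟨_, rfl⟩
  have hrr : r * r = T := by rw [hr]; exact Real.mul_self_sqrt hT0.le
  have hr20 : 20 ≤ r := by
    rw [hr]; apply Real.le_sqrt_of_sq_le; linarith
  have hr0 : 0 < r := by linarith
  -- the point with phase a multiple of `2π`
  obtain ⟨m, hm1, hm2⟩ : ∃ m : ℤ, -T ≤ 2 * Real.pi * m ∧ 2 * Real.pi * m ≤ -T + 2 * Real.pi := by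
    have hpi := Real.pi_pos
    refine ⟨⌈-T / (2 * Real.pi)⌉, ?_, ?_⟩
    · have := Int.le_ceil (-T / (2 * Real.pi))
      rw [div_le_iff₀ (by positivity)] at this
      linarith
    · have := Int.ceil_lt_add_one (-T / (2 * Real.pi))
      have h2 : (⌈-T / (2 * Real.pi)⌉ : ℝ) * (2 * Real.pi) ≤ (-T / (2 * Real.pi) + 1) * (2 * Real.pi) :=
        mul_le_mul_of_nonneg_right this.le (by positivity)
      rw [add_mul, div_mul_cancel₀ _ (by positivity)] at h2
      linarith
  have hcont : ContinuousOn (F T) (Set.Icc T (T + 8 * r)) := fun y hy =>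
    (F_deriv hT0 (lt_of_lt_of_le hT0 hy.1)).continuousAt.continuousWithinAt
  have hend : -T + 2 * Real.pi ≤ F T (T + 8 * r) := by
    have h1 := F_growth hT0 (s := 8 / r) (by positivity) (by rw [div_le_one hr0]; linarith)
    have h2 : T * (1 + 8 / r) = T + 8 * r := by
      rw [← hrr]; field_simp
    have h3 : T * ((8 / r) ^ 2 / 8) = 8 := by
      rw [← hrr]; field_simp
    rw [h2, h3] at h1
    have := Real.pi_lt_four
    linarith
  obtain ⟨t₁, ht₁, hF₁⟩ : ∃ t ∈ Set.Icc T (T + 8 * r), F T t = 2 * Real.pi * m := by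
    have h1 := intermediate_value_Icc (by linarith : T ≤ T + 8 * r) hcont
    have h2 : 2 * Real.pi * m ∈ Set.Icc (F T T) (F T (T + 8 * r)) := by
      rw [F_self hT0]
      exact ⟨hm1, hm2.trans hend⟩
    obtain ⟨t, ht, ht'⟩ := h1 h2
    exact ⟨t, ht, ht'⟩
  have ht₁0 : 0 < t₁ := lt_of_lt_of_le hT0 ht₁.1
  refine ⟨⌊t₁⌋₊, ⌊t₁ + r / 10⌋₊, ?_, ?_, ?_⟩
  · apply Nat.le_floor
    linarith [ht₁.1]
  · exact Nat.floor_mono (by linarith)
  -- each term is large
  have hterm : ∀ n ∈ Ioc ⌊t₁⌋₊ ⌊t₁ + r / 10⌋₊, 1 / (4 * r) ≤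
      Real.cos (n * Real.log n + n * x) / Real.sqrt n := by
    intro n hn
    rw [mem_Ioc] at hn
    have hn1 : t₁ < n := (Nat.floor_lt ht₁0.le).1 hn.1
    have hn2 : (n : ℝ) ≤ t₁ + r / 10 := by
      have := Nat.floor_le (by linarith : 0 ≤ t₁ + r / 10)
      have h2 : (n : ℝ) ≤ ⌊t₁ + r / 10⌋₊ := by exact_mod_cast hn.2
      linarith
    have hn0 : 0 < n := by
      have : (0:ℝ) < n := by linarith
      exact_mod_cast this
    rw [cos_phase (k : ℤ) x T (by rw [hT]; push_cast; rfl) n hn0]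
    obtain ⟨h3, h4⟩ := F_incr hT0 ht₁.1 hn1.le
    have h5 : ((n : ℝ) - t₁) * ((n - T) / T) ≤ 1 := by
      have h6 : (n : ℝ) - T ≤ 9 * r := by linarith [ht₁.2]
      have h7 : ((n : ℝ) - T) / T ≤ 9 / r := by
        rw [div_le_div_iff₀ hT0 hr0, ← hrr]
        nlinarith
      have h8 : 0 ≤ ((n : ℝ) - T) / T := div_nonneg (by linarith [ht₁.1]) hT0.le
      calc ((n : ℝ) - t₁) * ((n - T) / T) ≤ (r / 10) * (9 / r) :=
            mul_le_mul (by linarith) h7 h8 (by positivity)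
        _ = 9 / 10 := by field_simp
        _ ≤ 1 := by norm_num
    have h9 : Real.cos (F T n) = Real.cos (F T n - F T t₁) := by
      rw [hF₁]
      have h10 : 2 * Real.pi * (m : ℝ) = (m : ℝ) * (2 * Real.pi) := by ring
      rw [h10, Real.cos_sub_int_mul_two_pi]
    have h11 : 1 / 2 ≤ Real.cos (F T n) := by
      rw [h9]
      have h12 := Real.one_sub_sq_div_two_le_cos (x := F T n - F T t₁)
      nlinarith
    have h13 : Real.sqrt n ≤ 2 * r := by
      rw [Real.sqrt_le_left (by positivity)]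
      nlinarith [ht₁.2]
    have h14 : 0 < Real.sqrt n := Real.sqrt_pos.2 (by exact_mod_cast hn0)
    rw [div_le_div_iff₀ (by positivity) h14]
    nlinarith
  have hcard : r / 10 - 1 ≤ ((Ioc ⌊t₁⌋₊ ⌊t₁ + r / 10⌋₊).card : ℝ) := by
    rw [Nat.card_Ioc]
    have h1 : ⌊t₁⌋₊ ≤ ⌊t₁ + r / 10⌋₊ := Nat.floor_mono (by linarith)
    rw [Nat.cast_sub h1]
    have h2 := Nat.floor_le ht₁0.le
    have h3 := Nat.lt_floor_add_one (t₁ + r / 10)
    linarith
  calc (1 / 160 : ℝ) ≤ (r / 10 - 1) * (1 / (4 * r)) := by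
        rw [mul_one_div, div_le_div_iff₀ (by norm_num) (by positivity)]
        linarith
    _ ≤ ((Ioc ⌊t₁⌋₊ ⌊t₁ + r / 10⌋₊).card : ℝ) * (1 / (4 * r)) :=
        mul_le_mul_of_nonneg_right hcard (by positivity)
    _ = ∑ _n ∈ Ioc ⌊t₁⌋₊ ⌊t₁ + r / 10⌋₊, 1 / (4 * r) := by
        rw [sum_const, nsmul_eq_mul]
    _ ≤ _ := sum_le_sum hterm

/-- **Orlicz's problem.** There is a real trigonometric series which diverges at every real point
and whose coefficients are in `ℓ^(2+ε)` for every `ε > 0`. -/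
theorem result : ∃ a b : ℕ → ℝ,
    (∀ ε : ℝ, 0 < ε → Summable fun n : ℕ => |a (n + 1)| ^ (2 + ε) + |b (n + 1)| ^ (2 + ε)) ∧
    ∀ x : ℝ, ¬ ∃ l : ℝ, Tendsto
      (fun N : ℕ => ∑ n ∈ Icc 1 N, (a n * Real.cos (n * x) + b n * Real.sin (n * x)))
      atTop (𝓝 l) := by
  refine ⟨coefA, coefB, ?_, ?_⟩
  · intro ε hε
    have hs : Summable fun n : ℕ => 2 * (1 / ((n + 1 : ℕ) : ℝ) ^ (1 + ε / 2)) := by
      apply Summable.mul_left
      exact (summable_nat_add_iff (f := fun n : ℕ => 1 / (n : ℝ) ^ (1 + ε / 2)) 1).2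
        (Real.summable_one_div_nat_rpow.2 (by linarith))
    refine Summable.of_nonneg_of_le (fun n => by positivity) (fun n => ?_) hs
    have hn : (0:ℝ) < ((n + 1 : ℕ) : ℝ) := by positivity
    have hsq : 0 < Real.sqrt ((n + 1 : ℕ) : ℝ) := Real.sqrt_pos.2 hn
    have hbase : ∀ c : ℝ, |c| ≤ 1 → |c / Real.sqrt ((n + 1 : ℕ) : ℝ)| ^ (2 + ε) ≤
        1 / ((n + 1 : ℕ) : ℝ) ^ (1 + ε / 2) := by
      intro c hc
      have h1 : |c / Real.sqrt ((n + 1 : ℕ) : ℝ)| ≤ 1 / Real.sqrt ((n + 1 : ℕ) : ℝ) := by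
        rw [abs_div, abs_of_pos hsq]
        gcongr
      have h2 := Real.rpow_le_rpow (abs_nonneg _) h1 (by linarith : 0 ≤ 2 + ε)
      refine h2.trans (le_of_eq ?_)
      rw [Real.div_rpow (by norm_num) hsq.le, Real.one_rpow, Real.sqrt_eq_rpow,
        ← Real.rpow_mul hn.le]
      congr 2
      ring
    have hA : |coefA (n + 1)| ^ (2 + ε) ≤ 1 / ((n + 1 : ℕ) : ℝ) ^ (1 + ε / 2) :=
      hbase _ (Real.abs_cos_le_one _)
    have hB : |coefB (n + 1)| ^ (2 + ε) ≤ 1 / ((n + 1 : ℕ) : ℝ) ^ (1 + ε / 2) := by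
      unfold coefB
      rw [abs_neg]
      exact hbase _ (Real.abs_sin_le_one _)
    linarith
  · rintro x ⟨l, hl⟩
    have hc := hl.cauchySeq
    rw [Metric.cauchySeq_iff] at hc
    obtain ⟨N₀, hN₀⟩ := hc (1 / 160) (by norm_num)
    obtain ⟨M, N, h1, h2, h3⟩ := block x N₀
    have h4 := hN₀ N (h1.trans h2) M h1
    rw [Real.dist_eq] at h4
    have h5 : ∑ n ∈ Icc 1 N, (coefA n * Real.cos (n * x) + coefB n * Real.sin (n * x)) -
        ∑ n ∈ Icc 1 M, (coefA n * Real.cos (n * x) + coefB n * Real.sin (n * x)) =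
        ∑ n ∈ Ioc M N, Real.cos (n * Real.log n + n * x) / Real.sqrt n := by
      have h6 : Icc 1 N = Icc 1 M ∪ Ioc M N := by
        ext n
        simp only [mem_union, mem_Icc, mem_Ioc]
        omega
      have h7 : Disjoint (Icc 1 M) (Ioc M N) := by
        rw [Finset.disjoint_left]
        intro n hn hn'
        simp only [mem_Icc, mem_Ioc] at hn hn'
        omega
      rw [h6, sum_union h7, add_sub_cancel_left]
      exact sum_congr rfl fun n _ => term_eq n x
    rw [h5, abs_of_nonneg (by linarith)] at h4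
    linarith

end Pool.Agent.Results.MP_85199e_an.Orlicz
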